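import Pool.Agent.H243R3.MU.Final

/-!
# Approximating the complex structured singular value within some constant factor is NP-hard

Definitions: `Pool/Agent/H243R3/MU/Defs.lean` (complex `μ`, its approximation problem and
reductions to it) and `Pool/Agent/NPC/Defs.lean` (polynomial time, NP).

The proof. The PCP theorem (proved in `Pool/Agent/H243R3/PCP`) gives a reduction of every language
in NP to formulas, such that a word outside of the language gives a formula of which every
assignment violates at least a fixed fraction of the clauses. From the formula a graph, made up of
triangles, is built (as for the NP-hardness of 3-colourability), for whose Laplacian matrix `A` the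
maximum of `x* A x` over complex vectors `x` with `|x_i| ≤ 1` is `90 m` (with `m` the number of
clauses) if the formula is satisfiable, and at most `b m`, with `b < 90` fixed, in the other case.
This maximum is the norm of `A` as an operator from `ℓ_∞` to `ℓ_1`, and `μ ^ 3` for the cyclic
matrix `M` with the blocks `A`, a column of ones and a row of ones, with blocks of size `1`.
-/

set_option autoImplicit false

namespace Pool.Agent.Results.MP_54e0c2_lc.NPHardApprox

open Pool.Agent.H243R3.MU

/-- **Answer to Q1: yes.** For some constant `r > 0` the `r`-approximation problem for complex `μ`
is NP-hard, even if all blocks have size `1` and the entries of the matrix are integers. -/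
theorem result : ∃ r : ℝ, 0 < r ∧ ApproxNPHard ScalarInteger r :=
  Pool.Agent.NPC.DP.mu_hard

end Pool.Agent.Results.MP_54e0c2_lc.NPHardApprox
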